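import Pool.Agent.H98.Hyp1

namespace Pool.Agent.Results.MP_737bdd_co.Hyperplane

open Finset Pool.Agent.H98.Hyp

/-- Every geometric r-hypergraph in dimension d with n vertices in general position and m edges
has a hyperplane meeting at least t edges. -/
def Forces (d r m n t : ℕ) : Prop :=
  ∀ p : Fin n → Fin d → ℝ, Function.Injective p →
    (∀ φ : (Fin d → ℝ) →ₗ[ℝ] ℝ, φ ≠ 0 → ∀ c : ℝ, Set.ncard {i | φ (p i) = c} ≤ d) →
    ∀ E : Finset (Finset (Fin n)), (∀ e ∈ E, e.card = r) → E.card = m →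
      ∃ φ : (Fin d → ℝ) →ₗ[ℝ] ℝ, φ ≠ 0 ∧ ∃ c : ℝ,
        t ≤ Set.ncard {e | e ∈ E ∧ ∃ x ∈ convexHull ℝ (p '' (e : Set (Fin n))), φ x = c}

/-- The largest t that is always attained: the function f of the problem for k = d - 1. -/
noncomputable def f (d r m n : ℕ) : ℕ := sSup {t | Forces d r m n t}

lemma up (d r m n s t : ℕ) (hd : 1 ≤ d) (hs : m ≤ (fam n r s).card) (h : Forces d r m n t) :
    t ≤ d * (2 * s + 1) ^ r := by
  obtain ⟨E, e1, e2⟩ := exists_subset_card_eq hs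
  obtain ⟨φ, h1, c, h2⟩ := h (mom d n) (mom_inj d n hd) (mom_gp d n) E
    (fun e he => (mem_powersetCard.mp (mem_filter.mp (e1 he)).1).2) e2
  refine h2.trans (le_trans (Set.ncard_le_ncard ?_ (Set.toFinite _)) (mom_hits d n r s φ h1 c))
  exact fun e he => ⟨e1 he.1, he.2⟩

lemma low (d q m n s t : ℕ) (hn : 2 ≤ n) (hs : 2 * (n * s ^ q) ≤ m)
    (ht : ∀ t', (s + 1) * m ≤ 2 * n * t' → t ≤ t') : Forces d (q + 1) m n t := by
  classical
  intro p hinj _ E hE hm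
  obtain ⟨φ, hφ⟩ := Module.exists_dual_forall_apply_ne_zero (K := ℝ)
    (fun z : {z : Fin n × Fin n // z.1 ≠ z.2} => p z.1.1 - p z.1.2)
    (fun z => sub_ne_zero.mpr fun e => z.2 (hinj e))
  have n0 : φ ≠ 0 := by
    intro e
    exact hφ ⟨(⟨0, by omega⟩, ⟨1, by omega⟩), by simp⟩ (by simp [e])
  haveI : Nonempty (Fin n) := ⟨⟨0, by omega⟩⟩
  obtain ⟨v, hv⟩ := sweep (fun i => φ (p i)) E q hE s
  rw [Fintype.card_fin, hm] at hv
  refine ⟨φ, n0, φ (p v), le_trans (ht (E.filter fun e => ∃ u ∈ e, ∃ w ∈ e,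
    φ (p u) ≤ φ (p v) ∧ φ (p v) ≤ φ (p w)).card ?_) ?_⟩
  · have h1 := Nat.mul_le_mul_left (s + 1) hs
    have h2 : (s + 1) * m ≤ n * (E.filter fun e => ∃ u ∈ e, ∃ w ∈ e,
      φ (p u) ≤ φ (p v) ∧ φ (p v) ≤ φ (p w)).card + (s + 1) * (n * s ^ q) := by
      convert hv
    have h3 : (s + 1) * (2 * (n * s ^ q)) = 2 * ((s + 1) * (n * s ^ q)) := by ring
    rw [mul_assoc 2 n]
    omega
  · rw [← Set.ncard_coe_finset]
    refine Set.ncard_le_ncard (fun e he => ?_) (Set.toFinite _)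
    obtain ⟨h1, u, hu, w, hw, l1, l2⟩ := mem_filter.mp (mem_coe.mp he)
    refine ⟨h1, ?_⟩
    have cv : Convex ℝ (φ '' convexHull ℝ (p '' (e : Set (Fin n)))) :=
      (convex_convexHull ℝ _).linear_image φ
    have m1 : φ (p u) ∈ φ '' convexHull ℝ (p '' (e : Set (Fin n))) :=
      ⟨_, subset_convexHull ℝ _ ⟨u, hu, rfl⟩, rfl⟩
    have m2 : φ (p w) ∈ φ '' convexHull ℝ (p '' (e : Set (Fin n))) :=
      ⟨_, subset_convexHull ℝ _ ⟨w, hw, rfl⟩, rfl⟩
    exact cv.ordConnected.out m1 m2 ⟨l1, l2⟩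

theorem result (d q m n : ℕ) (hd : 1 ≤ d) (hq : 1 ≤ q) (h0 : 1 ≤ m) (h1 : n ≤ m)
    (h2 : m ≤ n.choose (q + 1)) :
    m ^ (q + 1) ≤ (2 * n) ^ (q + 1) * f d (q + 1) m n ^ q ∧
      n ^ (q + 1) * f d (q + 1) m n ^ q
        ≤ d ^ q * ((4 * q + 6) ^ q * (2 * q.factorial)) ^ (q + 1) * m ^ (q + 1) := by
  classical
  have hn : 2 ≤ n := by
    by_contra c
    have : n.choose (q + 1) = 0 := Nat.choose_eq_zero_of_lt (by omega)
    omega
  obtain ⟨s, s1, s2⟩ := span_choice n q m hq h1 h0 h2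
  have bdd : BddAbove {t | Forces d (q + 1) m n t} :=
    ⟨_, fun t ht => up d (q + 1) m n s t hd s1 ht⟩
  have ex : ∃ a, m < 2 * (n * a ^ q) := by
    refine ⟨m, ?_⟩
    have : m ≤ m ^ q := Nat.le_self_pow (by omega) m
    nlinarith
  have a0 : Nat.find ex ≠ 0 := by
    intro z
    have := Nat.find_spec ex
    rw [z, zero_pow (by omega)] at this
    omega
  obtain ⟨a, ha⟩ := Nat.exists_eq_succ_of_ne_zero a0
  have a1 : m < 2 * (n * (a + 1) ^ q) := by have := Nat.find_spec ex; rwa [ha] at this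
  have a2 : 2 * (n * a ^ q) ≤ m := not_lt.mp (Nat.find_min ex (by omega))
  have ex2 : ∃ t, (a + 1) * m ≤ 2 * n * t := ⟨(a + 1) * m, by nlinarith [Nat.zero_le ((a + 1) * m)]⟩
  have F := low d q m n a (Nat.find ex2) hn a2 (fun t' h => Nat.find_min' ex2 h)
  have l1 : Nat.find ex2 ≤ f d (q + 1) m n := le_csSup bdd F
  have l2 : (a + 1) * m ≤ 2 * n * f d (q + 1) m n :=
    (Nat.find_spec ex2).trans (Nat.mul_le_mul_left _ l1)
  have u1 : f d (q + 1) m n ≤ d * (2 * s + 1) ^ (q + 1) :=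
    csSup_le ⟨_, F⟩ fun t ht => up d (q + 1) m n s t hd s1 ht
  generalize f d (q + 1) m n = y at l2 u1 ⊢
  constructor
  · calc m ^ (q + 1) = m * m ^ q := by ring
      _ ≤ 2 * (n * (a + 1) ^ q) * m ^ q := Nat.mul_le_mul_right _ a1.le
      _ = 2 * n * ((a + 1) * m) ^ q := by rw [mul_pow]; ring
      _ ≤ 2 * n * (2 * n * y) ^ q := Nat.mul_le_mul_left _ (Nat.pow_le_pow_left l2 q)
      _ = _ := by rw [mul_pow (2 * n) y]; ring
  · calc n ^ (q + 1) * y ^ q ≤ n ^ (q + 1) * (d * (2 * s + 1) ^ (q + 1)) ^ q :=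
          Nat.mul_le_mul_left _ (Nat.pow_le_pow_left u1 q)
      _ = d ^ q * (n * (2 * s + 1) ^ q) ^ (q + 1) := by
          rw [mul_pow, mul_pow, ← pow_mul, ← pow_mul, mul_comm (q + 1) q]; ring
      _ ≤ d ^ q * ((4 * q + 6) ^ q * (2 * q.factorial) * m) ^ (q + 1) :=
          Nat.mul_le_mul_left _ (Nat.pow_le_pow_left s2 _)
      _ = _ := by rw [mul_pow _ m]; ring

end Pool.Agent.Results.MP_737bdd_co.Hyperplane
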